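import Pool.Agent.H39.EAG.Targets

/-!
# DTX: a block which does not fail
-/

set_option autoImplicit false

open Finset Filter Topology Pool.Agent.H39.EAG

namespace Pool.Agent.H50.EAG

theorem pf_DTX (hA : T_CHA) : T_DTX := by
  intro n G X i _ hI hF
  obtain ⟨_, _, hmono, hunion, hind⟩ := hA (Fin n) G
  unfold Fl at hF
  rw [not_lt] at hF
  have h1 : (univ : Finset (Fin n)) = X ∪ ((nbr G i \ X) ∪ (univ \ (X ∪ nbr G i))) := by
    ext v
    simp only [Finset.mem_univ, Finset.mem_union, Finset.mem_sdiff, true_iff]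
    tauto
  have h2 : chi G univ ≤ chi G X + chi G ((nbr G i \ X) ∪ (univ \ (X ∪ nbr G i))) := by
    conv_lhs => rw [h1]
    exact hunion _ _
  have h3 := hunion (nbr G i \ X) (univ \ (X ∪ nbr G i))
  have h4 := hind X hI
  have h5 : chi G (nbr G i \ X) ≤ chi G (nbr G i) := hmono _ _ sdiff_subset
  omega

end Pool.Agent.H50.EAG
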