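import Pool.Agent.H39.EAG.Targets

/-!
# NM3: the numbers for the blocks
-/

set_option autoImplicit false

open Finset Filter Topology Pool.Agent.H39.EAG

namespace Pool.Agent.H50.EAG

theorem pf_NM3 : T_NM3 := by
  intro ε hε
  have h1 : Tendsto (fun r : ℕ => Real.exp (-(r : ℝ))) atTop (𝓝 0) :=
    Real.tendsto_exp_neg_atTop_nhds_zero.comp tendsto_natCast_atTop_atTop
  have h2 : Tendsto (fun r : ℕ => (r : ℝ) * (1 / 2 : ℝ) ^ r) atTop (𝓝 0) := by
    have h := tendsto_pow_const_mul_const_pow_of_abs_lt_one 1 (r := (1 / 2 : ℝ))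
      (by rw [abs_of_pos (by norm_num)]; norm_num)
    simpa using h
  have h3 : Tendsto (fun r : ℕ => Real.exp (-(r : ℝ)) + (r : ℝ) * (1 / 2 : ℝ) ^ r) atTop
      (𝓝 0) := by
    simpa using h1.add h2
  obtain ⟨r, hr⟩ := ((h3.eventually (gt_mem_nhds hε)).and (eventually_ge_atTop 1)).exists
  refine ⟨r, r * 2 ^ (r.choose 2), hr.2, ?_⟩
  refine lt_of_le_of_lt ?_ hr.1
  set c := r.choose 2 with hc
  have hy0 : (0 : ℝ) < (1 / 2 : ℝ) ^ c := by positivity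
  have hy1 : (1 / 2 : ℝ) ^ c ≤ 1 := pow_le_one₀ (by norm_num) (by norm_num)
  have hyc : (1 / 2 : ℝ) ^ c * 2 ^ c = 1 := by
    rw [← mul_pow]
    norm_num
  refine add_le_add ?_ ?_
  · have h4 : 1 - (1 / 2 : ℝ) ^ c ≤ Real.exp (-((1 / 2 : ℝ) ^ c)) := by
      have := Real.add_one_le_exp (-((1 / 2 : ℝ) ^ c))
      linarith
    calc (1 - (1 / 2 : ℝ) ^ c) ^ (r * 2 ^ c) ≤ (Real.exp (-((1 / 2 : ℝ) ^ c))) ^ (r * 2 ^ c) :=
          pow_le_pow_left₀ (by linarith) h4 _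
      _ = Real.exp (-(r : ℝ)) := by
          rw [← Real.exp_nat_mul]
          congr 1
          push_cast
          linear_combination (-(r : ℝ)) * hyc
  · push_cast
    have h5 : (r : ℝ) * 2 ^ c * ((1 / 2 : ℝ) ^ c * (1 / 2 : ℝ) ^ r) = (r : ℝ) * (1 / 2 : ℝ) ^ r := by
      linear_combination ((r : ℝ) * (1 / 2 : ℝ) ^ r) * hyc
    exact h5.le

end Pool.Agent.H50.EAG
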